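import Pool.Agent.Lib.D2P_h17.H2

/-!
# Project S, row A: algebraic elements of least degree near to `z`

`L` (the field `F'` of the text) is a field with a map to the algebraically closed field `Ω`,
`v` a real valuation of `Ω`, `z : Ω` transcendental over `L`, `ρ` a real number.
`η` is an element of least degree `d` over `L` with `v (z - η) > ρ`; it can be chosen separable.
-/

set_option autoImplicit false

open Polynomial

namespace Pool.Agent.SUA

open Pool.Agent.H15JM (RVal)
open Pool.Agent.LU1 (VPos val_add_vpos)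
open Pool.Agent.D2 (exists_root_ge map_ne_zero' exists_expansion sum_min)

universe u w

/-! ## Polynomials with far roots -/

section Far

variable {Ω : Type u} [Field Ω] {v : RVal Ω}

/-- All roots `α` of `P` satisfy `v (η - α) ≤ ρ` (in particular `α ≠ η`). -/
def FarRoots (v : RVal Ω) (ρ : ℝ) (η : Ω) (R : Multiset Ω) : Prop :=
  ∀ α ∈ R, η - α ≠ 0 ∧ v (η - α) ≤ ρ

theorem prod_ne {ρ : ℝ} {η : Ω} {R : Multiset Ω} (hR : FarRoots v ρ η R) :
    (R.map fun α => η - α).prod ≠ 0 := by
  intro h
  rw [Multiset.prod_eq_zero_iff, Multiset.mem_map] at h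
  obtain ⟨α, h1, h2⟩ := h
  exact (hR α h1).1 h2

/-- The Taylor coefficients of a product of linear factors at a far point. -/
theorem coeff_prod_far {ρ : ℝ} {η : Ω} (R : Multiset Ω) (hR : FarRoots v ρ η R) (j : ℕ) :
    v.Ge (v (R.map fun α => η - α).prod - j * ρ)
      ((R.map fun α => (X + C (η - α) : Polynomial Ω)).prod.coeff j) := by
  induction R using Multiset.induction_on generalizing j with
  | empty =>
    simp only [Multiset.map_zero, Multiset.prod_zero, v.map_one, coeff_one]
    split_ifs with h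
    · rw [h]
      intro _
      rw [v.map_one]
      simp
    · exact RVal.Ge.zero
  | cons α R ih =>
    have hR' : FarRoots v ρ η R := fun β h => hR β (Multiset.mem_cons_of_mem h)
    obtain ⟨h1, h2⟩ := hR α (Multiset.mem_cons_self α R)
    have h3 := prod_ne hR'
    rw [Multiset.map_cons, Multiset.map_cons, Multiset.prod_cons, Multiset.prod_cons,
      v.map_mul h1 h3, add_mul, coeff_add, coeff_C_mul]
    refine RVal.Ge.add ?_ ?_
    · rcases Nat.eq_zero_or_pos j with h | h
      · rw [h, mul_coeff_zero, coeff_X_zero, zero_mul]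
        exact RVal.Ge.zero
      · obtain ⟨i, rfl⟩ := Nat.exists_eq_succ_of_ne_zero h.ne'
        rw [Nat.succ_eq_add_one, coeff_X_mul]
        refine (ih hR' i).mono ?_
        push_cast
        linarith
    · have := (RVal.ge_self (v := v) (η - α)).mul (ih hR' j)
      refine this.mono (le_of_eq (by ring))

/-- The Taylor expansion of a split polynomial. -/
theorem taylor_splits {P : Polynomial Ω} (hsp : P.Splits) (η : Ω) :
    taylor η P = C P.leadingCoeff * (P.roots.map fun α => (X + C (η - α) : Polynomial Ω)).prod := by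
  conv_lhs => rw [hsp.eq_prod_roots]
  rw [taylor_apply, mul_comp, C_comp, multiset_prod_comp, Multiset.map_map]
  congr 2
  refine Multiset.map_congr rfl fun α _ => ?_
  simp only [Function.comp, sub_comp, X_comp, C_comp, map_sub]
  ring

theorem eval_splits {P : Polynomial Ω} (hsp : P.Splits) (η : Ω) :
    P.eval η = P.leadingCoeff * (P.roots.map fun α => η - α).prod := by
  conv_lhs => rw [hsp.eq_prod_roots]
  rw [eval_mul, eval_C, eval_multiset_prod, Multiset.map_map]
  congr 2
  refine Multiset.map_congr rfl fun ρ _ => ?_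
  simp

/-- A polynomial with far roots: the value at `η` and the estimate for the Taylor coefficients. -/
theorem far_hasse {P : Polynomial Ω} (hP : P ≠ 0) (hsp : P.Splits) {ρ : ℝ} {η : Ω}
    (hR : FarRoots v ρ η P.roots) :
    P.eval η ≠ 0 ∧ ∀ j : ℕ, v.Ge (v (P.eval η) - j * ρ) ((hasseDeriv j P).eval η) := by
  have hl : P.leadingCoeff ≠ 0 := leadingCoeff_ne_zero.mpr hP
  have h1 := prod_ne hR
  refine ⟨by rw [eval_splits hsp]; exact mul_ne_zero hl h1, fun j => ?_⟩
  rw [← taylor_coeff, taylor_splits hsp, coeff_C_mul, eval_splits hsp, v.map_mul hl h1]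
  refine ((RVal.ge_self (v := v) P.leadingCoeff).mul (coeff_prod_far _ hR j)).mono
    (le_of_eq (by ring))

/-- A polynomial with far roots has the same value at `η` and at `η + t` if `v t > ρ`. -/
theorem far_val {P : Polynomial Ω} (hP : P ≠ 0) (hsp : P.Splits) {ρ : ℝ} {η z : Ω}
    (hR : FarRoots v ρ η P.roots) (ht : z - η ≠ 0 → ρ < v (z - η)) :
    P.eval z ≠ 0 ∧ v (P.eval z) = v (P.eval η) := by
  have hl : P.leadingCoeff ≠ 0 := leadingCoeff_ne_zero.mpr hP
  have key : ∀ R : Multiset Ω, FarRoots v ρ η R →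
      (R.map fun α => z - α).prod ≠ 0 ∧
        v (R.map fun α => z - α).prod = v (R.map fun α => η - α).prod := by
    intro R
    induction R using Multiset.induction_on with
    | empty => intro _; simp
    | cons α R ih =>
      intro hR
      have hR' : FarRoots v ρ η R := fun β h => hR β (Multiset.mem_cons_of_mem h)
      obtain ⟨h1, h2⟩ := hR α (Multiset.mem_cons_self α R)
      obtain ⟨h3, h4⟩ := ih hR'
      have h5 : z - α ≠ 0 ∧ v (z - α) = v (η - α) := by
        by_cases h0 : z - η = 0
        · rw [sub_eq_zero] at h0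
          rw [h0]
          exact ⟨h1, rfl⟩
        · have h6 := v.add_of_lt h1 h0 (h2.trans_lt (ht h0))
          have h7 : η - α + (z - η) = z - α := by ring
          rwa [h7] at h6
      rw [Multiset.map_cons, Multiset.map_cons, Multiset.prod_cons, Multiset.prod_cons,
        v.map_mul h5.1 h3, v.map_mul h1 (prod_ne hR'), h5.2, h4]
      exact ⟨mul_ne_zero h5.1 h3, rfl⟩
  obtain ⟨h1, h2⟩ := key P.roots hR
  rw [eval_splits hsp, eval_splits hsp, v.map_mul hl h1, v.map_mul hl (prod_ne hR), h2]
  exact ⟨mul_ne_zero hl h1, rfl⟩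

end Far

/-! ## Near and far factors -/

section NearFar

variable {Ω : Type u} [Field Ω] {v : RVal Ω}

open Classical in
/-- The coefficients of `∏ (X + δ)`, when every `δ` is near (value at least `γ`) or far (value at
most `σ < γ`). -/
theorem coeff_prod_nearfar {γ σ : ℝ} (hσγ : σ < γ) (D : Multiset Ω)
    (hD : ∀ δ ∈ D, v.Ge γ δ ∨ (δ ≠ 0 ∧ v δ ≤ σ)) :
    ∃ (c : ℕ) (β : ℝ), c = (D.filter fun δ => v.Ge γ δ).card ∧
      (D.map fun δ => (X + C δ : Polynomial Ω)).prod.coeff c ≠ 0 ∧
      v ((D.map fun δ => (X + C δ : Polynomial Ω)).prod.coeff c) = β ∧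
      (∀ j < c, v.Ge (β + (c - j) * γ)
        ((D.map fun δ => (X + C δ : Polynomial Ω)).prod.coeff j)) ∧
      ∀ j, c < j → v.Ge (β - (j - c) * σ)
        ((D.map fun δ => (X + C δ : Polynomial Ω)).prod.coeff j) := by
  induction D using Multiset.induction_on with
  | empty =>
    refine ⟨0, 0, by simp, by simp, by simp [v.map_one], fun j hj => absurd hj (Nat.not_lt_zero j),
      fun j hj => ?_⟩
    simp only [Multiset.map_zero, Multiset.prod_zero, coeff_one]
    rw [if_neg (by omega)]
    exact RVal.Ge.zero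
  | cons δ D ih =>
    obtain ⟨c, β, hc, h0, hβ, hlt, hgt⟩ := ih fun δ' h' => hD δ' (Multiset.mem_cons_of_mem h')
    set f := (D.map fun δ => (X + C δ : Polynomial Ω)).prod with hf
    have hco : ∀ j, ((X + C δ) * f).coeff (j + 1) = f.coeff j + δ * f.coeff (j + 1) := by
      intro j
      rw [add_mul, coeff_add, coeff_C_mul, coeff_X_mul]
    have hco0 : ((X + C δ) * f).coeff 0 = δ * f.coeff 0 := by
      rw [mul_coeff_zero, coeff_add, coeff_X_zero, coeff_C_zero, zero_add]
    rw [Multiset.map_cons, Multiset.prod_cons, ← hf]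
    have hgc : v.Ge β (f.coeff c) := fun _ => hβ.ge
    by_cases hn : v.Ge γ δ
    · -- near
      refine ⟨c + 1, β, ?_, ?_⟩
      · rw [Multiset.filter_cons_of_pos (p := fun δ => v.Ge γ δ) D hn, Multiset.card_cons, hc]
      have h1 : v.Ge (β + (γ - σ)) (δ * f.coeff (c + 1)) := by
        have := hn.mul (hgt (c + 1) (Nat.lt_succ_self c))
        refine this.mono (le_of_eq ?_)
        push_cast
        ring
      have h2 : ((X + C δ) * f).coeff (c + 1) ≠ 0 ∧ v (((X + C δ) * f).coeff (c + 1)) = β := by
        rw [hco]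
        by_cases h3 : δ * f.coeff (c + 1) = 0
        · rw [h3, add_zero]
          exact ⟨h0, hβ⟩
        · have h4 := h1 h3
          have h5 := v.add_of_lt h0 h3 (by rw [hβ]; linarith)
          exact ⟨h5.1, h5.2.trans hβ⟩
      refine ⟨h2.1, h2.2, fun j hj => ?_, fun j hj => ?_⟩
      · rcases Nat.eq_zero_or_pos j with h3 | h3
        · subst h3
          rw [hco0]
          rcases Nat.eq_zero_or_pos c with h4 | h4
          · subst h4
            refine (hn.mul hgc).mono (le_of_eq ?_)
            push_cast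
            ring
          · refine (hn.mul (hlt 0 h4)).mono (le_of_eq ?_)
            push_cast
            ring
        · obtain ⟨i, rfl⟩ := Nat.exists_eq_succ_of_ne_zero h3.ne'
          rw [Nat.succ_eq_add_one] at hj ⊢
          rw [hco]
          refine RVal.Ge.add ?_ ?_
          · refine (hlt i (by omega)).mono (le_of_eq ?_)
            push_cast
            ring
          · rcases Nat.lt_or_ge (i + 1) c with h5 | h5
            · refine (hn.mul (hlt (i + 1) h5)).mono (le_of_eq ?_)
              push_cast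
              ring
            · have h6 : i + 1 = c := by omega
              rw [h6]
              refine (hn.mul hgc).mono (le_of_eq ?_)
              rw [← h6]
              push_cast
              ring
      · obtain ⟨i, rfl⟩ := Nat.exists_eq_succ_of_ne_zero (show j ≠ 0 by omega)
        rw [Nat.succ_eq_add_one] at hj ⊢
        rw [hco]
        refine RVal.Ge.add ?_ ?_
        · refine (hgt i (by omega)).mono (le_of_eq ?_)
          push_cast
          ring
        · refine (hn.mul (hgt (i + 1) (by omega))).mono ?_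
          push_cast
          linarith
    · -- far
      obtain ⟨hδ0, hδ⟩ := (hD δ (Multiset.mem_cons_self δ D)).resolve_left hn
      have hsδ : v.Ge (v δ) δ := RVal.ge_self δ
      refine ⟨c, β + v δ, ?_, ?_⟩
      · rw [Multiset.filter_cons_of_neg (p := fun δ => v.Ge γ δ) D hn, hc]
      have h1 : δ * f.coeff c ≠ 0 ∧ v (δ * f.coeff c) = β + v δ :=
        ⟨mul_ne_zero hδ0 h0, by rw [v.map_mul hδ0 h0, hβ, add_comm]⟩
      have h2 : ((X + C δ) * f).coeff c ≠ 0 ∧ v (((X + C δ) * f).coeff c) = β + v δ := by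
        rcases Nat.eq_zero_or_pos c with h3 | h3
        · rw [h3] at h1 ⊢
          rw [hco0]
          exact h1
        · obtain ⟨i, hi⟩ := Nat.exists_eq_succ_of_ne_zero h3.ne'
          rw [Nat.succ_eq_add_one] at hi
          rw [hi] at h1 ⊢
          rw [hco]
          by_cases h4 : f.coeff i = 0
          · rw [h4, zero_add]
            exact h1
          · have h5 := hlt i (by omega) h4
            rw [hi] at h5
            push_cast at h5
            have h6 := v.add_of_lt h1.1 h4 (by rw [h1.2]; linarith)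
            rw [add_comm] at h6
            exact ⟨h6.1, h6.2.trans h1.2⟩
      refine ⟨h2.1, h2.2, fun j hj => ?_, fun j hj => ?_⟩
      · have hjc : (j : ℝ) < c := by exact_mod_cast hj
        have h4 : v.Ge (β + v δ + (c - j) * γ) (δ * f.coeff j) :=
          (hsδ.mul (hlt j hj)).mono (le_of_eq (by ring))
        rcases Nat.eq_zero_or_pos j with h3 | h3
        · subst h3
          rw [hco0]
          exact h4
        · obtain ⟨i, rfl⟩ := Nat.exists_eq_succ_of_ne_zero h3.ne'
          rw [Nat.succ_eq_add_one] at hj h4 ⊢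
          rw [hco]
          refine RVal.Ge.add ?_ h4
          refine (hlt i (by omega)).mono ?_
          push_cast
          linarith
      · have h4 : v.Ge (β + v δ - (j - c) * σ) (δ * f.coeff j) :=
          (hsδ.mul (hgt j hj)).mono (le_of_eq (by ring))
        obtain ⟨i, rfl⟩ := Nat.exists_eq_succ_of_ne_zero (show j ≠ 0 by omega)
        rw [Nat.succ_eq_add_one] at hj h4 ⊢
        rw [hco]
        refine RVal.Ge.add ?_ h4
        rcases Nat.lt_or_ge c i with h5 | h5
        · refine (hgt i h5).mono ?_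
          push_cast
          linarith
        · have h6 : i = c := by omega
          subst h6
          refine hgc.mono ?_
          push_cast
          linarith

end NearFar

/-! ## Elements of least degree -/

section MinEl

variable {L : Type w} {Ω : Type u} [Field L] [Field Ω] [Algebra L Ω]

/-- `η` is separable algebraic of least degree over `L` with `v (z - η) > ρ`. -/
structure MinEl (L : Type w) {Ω : Type u} [Field L] [Field Ω] [Algebra L Ω] (v : RVal Ω) (z : Ω)
    (ρ : ℝ) (η : Ω) : Prop where
  trans : Transcendental L z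
  int : IsIntegral L η
  sep : (minpoly L η).Separable
  gt : ρ < v (z - η)
  least : ∀ α : Ω, IsAlgebraic L α → (minpoly L α).natDegree < (minpoly L η).natDegree →
    v (z - α) ≤ ρ

variable {v : RVal Ω} {z : Ω} {ρ : ℝ} {η : Ω}

theorem sub_ne {L : Type w} {Ω : Type u} [Field L] [Field Ω] [Algebra L Ω] {z : Ω}
    (hz : Transcendental L z) {α : Ω} (hα : IsAlgebraic L α) : z - α ≠ 0 := by
  intro h
  rw [sub_eq_zero] at h
  exact hz (h ▸ hα)

/-- Existence of elements of least degree. -/
theorem exists_minEl [IsAlgClosed Ω] (hz : Transcendental L z)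
    (hv : ∃ a : L, a ≠ 0 ∧ v (algebraMap L Ω a) ≠ 0)
    (hex : ∃ α : Ω, IsAlgebraic L α ∧ ρ < v (z - α)) : ∃ η, MinEl L v z ρ η := by
  classical
  have hex' : ∃ d : ℕ, ∃ α : Ω, IsAlgebraic L α ∧ ρ < v (z - α) ∧ (minpoly L α).natDegree = d := by
    obtain ⟨α, h1, h2⟩ := hex
    exact ⟨_, α, h1, h2, rfl⟩
  obtain ⟨α, hα, hαρ, hαd⟩ := Nat.find_spec hex'
  have hleast : ∀ β : Ω, IsAlgebraic L β → (minpoly L β).natDegree < Nat.find hex' →
      v (z - β) ≤ ρ := by
    intro β hβ hβd
    by_contra hcon
    push Not at hcon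
    exact Nat.find_min hex' hβd ⟨β, hβ, hcon, rfl⟩
  have hαi : IsIntegral L α := hα.isIntegral
  by_cases hsep : (minpoly L α).Separable
  · exact ⟨α, hz, hαi, hsep, hαρ, fun β hβ hlt => hleast β hβ (hαd ▸ hlt)⟩
  -- perturb
  have hirr := minpoly.irreducible hαi
  have hmonic := minpoly.monic hαi
  have hder : derivative (minpoly L α) = 0 := by
    by_contra h
    exact hsep ((separable_iff_derivative_ne_zero hirr).mpr h)
  have hd2 : 2 ≤ (minpoly L α).natDegree := by
    have h1 := minpoly.natDegree_pos hαi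
    by_contra h2
    have h3 : (minpoly L α).natDegree = 1 := by omega
    have h4 : (derivative (minpoly L α)).coeff 0 = 0 := by rw [hder, coeff_zero]
    rw [coeff_derivative, zero_add] at h4
    have h5 : (minpoly L α).coeff 1 = 1 := by
      rw [← h3]
      exact hmonic.coeff_natDegree
    rw [h5] at h4
    simp at h4
  have hα0 : α ≠ 0 := by
    intro h
    rw [h, minpoly.zero, natDegree_X] at hd2
    omega
  -- an element of large value
  have hbig : ∀ B : ℝ, ∃ a : L, a ≠ 0 ∧ B ≤ v (algebraMap L Ω a) := by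
    obtain ⟨a, ha, hva⟩ := hv
    have hpos : ∃ a : L, a ≠ 0 ∧ 0 < v (algebraMap L Ω a) := by
      rcases lt_or_gt_of_ne hva with h | h
      · refine ⟨a⁻¹, inv_ne_zero ha, ?_⟩
        rw [map_inv₀, v.map_inv (map_ne_zero' ha)]
        linarith
      · exact ⟨a, ha, h⟩
    obtain ⟨a, ha, hva⟩ := hpos
    intro B
    obtain ⟨n, hn⟩ := exists_nat_ge (B / v (algebraMap L Ω a))
    refine ⟨a ^ n, pow_ne_zero _ ha, ?_⟩
    rw [map_pow, v.map_pow (map_ne_zero' ha)]
    rwa [div_le_iff₀ hva] at hn
  set d := (minpoly L α).natDegree with hd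
  obtain ⟨ε, hε0, hε⟩ := hbig (d * v (z - α) - v α)
  set Q : Polynomial L := minpoly L α + C ε * X with hQ
  have hdeg' : (C ε * X : Polynomial L).degree < (minpoly L α).degree := by
    rw [degree_C_mul_X hε0, degree_eq_natDegree hmonic.ne_zero, ← hd]
    exact_mod_cast (by omega : 1 < d)
  have hQm : Q.Monic := hmonic.add_of_left hdeg'
  have hQd : Q.natDegree = d := by
    rw [hQ, natDegree_add_eq_left_of_degree_lt hdeg']
  have hQmap : (Q.map (algebraMap L Ω)).Monic := hQm.map _
  have hval : v.Ge (v (Q.map (algebraMap L Ω)).leadingCoeff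
      + (Q.map (algebraMap L Ω)).natDegree * v (z - α)) ((Q.map (algebraMap L Ω)).eval α) := by
    have h1 : (Q.map (algebraMap L Ω)).eval α = algebraMap L Ω ε * α := by
      rw [eval_map_algebraMap, hQ, map_add, minpoly.aeval, zero_add, map_mul, aeval_C, aeval_X]
    rw [h1, hQmap.leadingCoeff, v.map_one, natDegree_map, hQd]
    intro _
    rw [v.map_mul (map_ne_zero' hε0) hα0]
    linarith
  obtain ⟨η, hη, hηα⟩ := exists_root_ge (by rw [natDegree_map, hQd]; omega) hval
  rw [eval_map_algebraMap] at hη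
  have hηal : IsAlgebraic L η := ⟨Q, hQm.ne_zero, hη⟩
  have hηρ : ρ < v (z - η) := by
    have h1 : z - η = (z - α) + (α - η) := by ring
    have h2 : v.Ge (v (z - α)) (z - η) := by
      rw [h1]
      exact (RVal.ge_self _).add hηα
    exact hαρ.trans_le (h2 (sub_ne hz hηal))
  have hηd : d ≤ (minpoly L η).natDegree := by
    by_contra hcon
    push Not at hcon
    have := hleast η hηal (hαd ▸ hcon)
    linarith
  have hηQ : Q = minpoly L η := by
    have h1 : minpoly L η ∣ Q := minpoly.dvd L η hη
    refine (eq_of_monic_of_dvd_of_natDegree_le (minpoly.monic hηal.isIntegral) hQm h1 ?_)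
    rw [hQd]
    exact hηd
  refine ⟨η, hz, hηal.isIntegral, ?_, hηρ, fun β hβ hlt => hleast β hβ ?_⟩
  · rw [separable_iff_derivative_ne_zero (minpoly.irreducible hηal.isIntegral), ← hηQ, hQ,
      derivative_add, hder, zero_add, derivative_C_mul, derivative_X, mul_one]
    exact C_ne_zero.mpr hε0
  · rw [← hηQ, hQd] at hlt
    rw [← hαd]
    exact hlt

namespace MinEl

variable (h : MinEl L v z ρ η)

include h

theorem zeta_ne : z - η ≠ 0 := sub_ne h.trans h.int.isAlgebraic

/-- Elements of smaller degree are far from `η`. -/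
theorem far {α : Ω} (hα : IsAlgebraic L α)
    (hd : (minpoly L α).natDegree < (minpoly L η).natDegree) : η - α ≠ 0 ∧ v (η - α) ≤ ρ := by
  have h1 := h.least α hα hd
  have h0 : η - α ≠ 0 := by
    intro h2
    rw [sub_eq_zero] at h2
    rw [h2] at hd
    exact lt_irrefl _ hd
  refine ⟨h0, ?_⟩
  by_contra hcon
  push Not at hcon
  have h2 := v.map_add h.zeta_ne h0 (by
    rw [show z - η + (η - α) = z - α by ring]
    exact sub_ne h.trans hα)
  rw [show z - η + (η - α) = z - α by ring] at h2
  have h3 : ρ < min (v (z - η)) (v (η - α)) := lt_min h.gt hcon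
  linarith

/-- The roots of a polynomial of degree less than `d` are far from `η`. -/
theorem farRoots {P : Polynomial L} (hP : P ≠ 0)
    (hd : P.natDegree < (minpoly L η).natDegree) :
    FarRoots v ρ η (P.map (algebraMap L Ω)).roots := by
  intro α hα
  have h1 : aeval α P = 0 := by
    rw [← eval_map_algebraMap]
    exact (mem_roots (D2.map_ne hP)).mp hα
  refine h.far ⟨P, hP, h1⟩ (lt_of_le_of_lt ?_ hd)
  exact natDegree_le_of_dvd (minpoly.dvd L α h1) hP

variable [IsAlgClosed Ω]

/-- Estimate (1) of the text. -/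
theorem hasse {P : Polynomial L} (hP : P ≠ 0) (hd : P.natDegree < (minpoly L η).natDegree) :
    aeval η P ≠ 0 ∧ ∀ j : ℕ, v.Ge (v (aeval η P) - j * ρ) (aeval η (hasseDeriv j P)) := by
  have h1 := far_hasse (D2.map_ne (Ω := Ω) hP) (IsAlgClosed.splits _) (h.farRoots hP hd)
  have h2 : ∀ j, hasseDeriv j (P.map (algebraMap L Ω)) = (hasseDeriv j P).map (algebraMap L Ω) := by
    intro j
    ext n
    rw [hasseDeriv_coeff, coeff_map, coeff_map, hasseDeriv_coeff, map_mul, map_natCast]
  simp only [h2, eval_map_algebraMap] at h1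
  exact h1

/-- `v (P (z)) = v (P (η))` for polynomials of degree less than `d`. -/
theorem val {P : Polynomial L} (hP : P ≠ 0) (hd : P.natDegree < (minpoly L η).natDegree) :
    aeval z P ≠ 0 ∧ v (aeval z P) = v (aeval η P) := by
  have h1 := far_val (D2.map_ne (Ω := Ω) hP) (IsAlgClosed.splits _) (h.farRoots hP hd)
    (z := z) fun _ => h.gt
  simp only [eval_map_algebraMap] at h1
  exact h1

omit [IsAlgClosed Ω] in
/-- Any polynomial whose roots `α` have `v (z - α) ≤ ρ`. -/
theorem farRoots' {P : Polynomial L} (hP : P ≠ 0)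
    (hr : ∀ α : Ω, aeval α P = 0 → v (z - α) ≤ ρ) :
    FarRoots v ρ η (P.map (algebraMap L Ω)).roots := by
  intro α hα
  have h1 : aeval α P = 0 := by
    rw [← eval_map_algebraMap]
    exact (mem_roots (D2.map_ne hP)).mp hα
  have h2 := hr α h1
  have h3 : z - α ≠ 0 := sub_ne h.trans ⟨P, hP, h1⟩
  have h4 : η - α = (z - α) + -(z - η) := by ring
  have h5 := v.add_of_lt h3 (neg_ne_zero.mpr h.zeta_ne)
    (by rw [v.map_neg _ h.zeta_ne]; linarith [h.gt])
  rw [h4]
  exact ⟨h5.1, h5.2.le.trans h2⟩

theorem hasse' {P : Polynomial L} (hP : P ≠ 0)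
    (hr : ∀ α : Ω, aeval α P = 0 → v (z - α) ≤ ρ) :
    aeval η P ≠ 0 ∧ ∀ j : ℕ, v.Ge (v (aeval η P) - j * ρ) (aeval η (hasseDeriv j P)) := by
  have h1 := far_hasse (D2.map_ne (Ω := Ω) hP) (IsAlgClosed.splits _) (h.farRoots' hP hr)
  have h2 : ∀ j, hasseDeriv j (P.map (algebraMap L Ω)) = (hasseDeriv j P).map (algebraMap L Ω) := by
    intro j
    ext n
    rw [hasseDeriv_coeff, coeff_map, coeff_map, hasseDeriv_coeff, map_mul, map_natCast]
  simp only [h2, eval_map_algebraMap] at h1
  exact h1

/-- The near and far conjugates: the numbers `c`, `β`, `σ` and the values of the Taylor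
coefficients of the minimal polynomial `Q` at `η`; `γ = v (z - η)`. -/
theorem exists_nearFar : ∃ (c : ℕ) (β σ : ℝ), 0 < c ∧ c ≤ (minpoly L η).natDegree ∧
    ρ ≤ σ ∧ σ < v (z - η) ∧
    aeval η (hasseDeriv c (minpoly L η)) ≠ 0 ∧ v (aeval η (hasseDeriv c (minpoly L η))) = β ∧
    (∀ j < c, v.Ge (β + (c - j) * v (z - η)) (aeval η (hasseDeriv j (minpoly L η)))) ∧
    ∀ j, c < j → v.Ge (β - (j - c) * σ) (aeval η (hasseDeriv j (minpoly L η))) := by
  classical
  set γ := v (z - η) with hγ
  set Q := (minpoly L η).map (algebraMap L Ω) with hQ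
  have hQm : Q.Monic := (minpoly.monic h.int).map _
  set D := Q.roots.map fun α => η - α with hD
  -- the bound of the far distances
  obtain ⟨σ, hσ1, hσ2, hσ3⟩ : ∃ σ : ℝ, ρ ≤ σ ∧ σ < γ ∧ ∀ δ ∈ D, v.Ge γ δ ∨ (δ ≠ 0 ∧ v δ ≤ σ) := by
    have key : ∀ D : Multiset Ω, ∃ σ : ℝ, ρ ≤ σ ∧ σ < γ ∧
        ∀ δ ∈ D, v.Ge γ δ ∨ (δ ≠ 0 ∧ v δ ≤ σ) := by
      intro D
      induction D using Multiset.induction_on with
      | empty => exact ⟨ρ, le_rfl, h.gt, fun δ hδ => absurd hδ (Multiset.notMem_zero δ)⟩
      | cons δ D ih =>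
        obtain ⟨σ, h1, h2, h3⟩ := ih
        by_cases hn : v.Ge γ δ
        · refine ⟨σ, h1, h2, fun δ' h' => ?_⟩
          rcases Multiset.mem_cons.mp h' with h4 | h4
          · subst h4
            exact Or.inl hn
          · exact h3 δ' h4
        · have hn' := hn
          unfold RVal.Ge at hn'
          push Not at hn'
          refine ⟨max σ (v δ), h1.trans (le_max_left _ _), max_lt h2 hn'.2, fun δ' h' => ?_⟩
          rcases Multiset.mem_cons.mp h' with h4 | h4
          · subst h4
            exact Or.inr ⟨hn'.1, le_max_right _ _⟩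
          · rcases h3 δ' h4 with h5 | h5
            · exact Or.inl h5
            · exact Or.inr ⟨h5.1, h5.2.trans (le_max_left _ _)⟩
    exact key D
  obtain ⟨c, β, hc, h0, hβ, hlt, hgt⟩ := coeff_prod_nearfar hσ2 D hσ3
  have hT : ∀ j, (D.map fun δ => (X + C δ : Polynomial Ω)).prod.coeff j
      = aeval η (hasseDeriv j (minpoly L η)) := by
    intro j
    have h1 := taylor_splits (IsAlgClosed.splits Q) η
    rw [hQm.leadingCoeff, C_1, one_mul] at h1
    have h2 : hasseDeriv j Q = (hasseDeriv j (minpoly L η)).map (algebraMap L Ω) := by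
      ext n
      rw [hasseDeriv_coeff, hQ, coeff_map, coeff_map, hasseDeriv_coeff, map_mul, map_natCast]
    rw [hD, Multiset.map_map, ← eval_map_algebraMap, ← h2, ← taylor_coeff, h1]
    rfl
  simp only [hT] at h0 hβ hlt hgt
  refine ⟨c, β, σ, ?_, ?_, hσ1, hσ2, h0, hβ, hlt, hgt⟩
  · rw [hc, Multiset.card_pos_iff_exists_mem]
    refine ⟨0, Multiset.mem_filter.mpr ⟨?_, RVal.Ge.zero⟩⟩
    rw [hD, Multiset.mem_map]
    refine ⟨η, (mem_roots hQm.ne_zero).mpr ?_, sub_self η⟩
    rw [IsRoot, hQ, eval_map_algebraMap]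
    exact minpoly.aeval L η
  · rw [hc]
    refine (Multiset.card_le_card (Multiset.filter_le _ _)).trans ?_
    rw [hD, Multiset.card_map]
    refine (card_roots' Q).trans ?_
    rw [hQ, natDegree_map]

end MinEl

end MinEl

end Pool.Agent.SUA
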