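import Pool.Agent.Lib.SU_h17.RowA

/-!
# Project S, row E: the values of `K = L(z)` for a valuation `w` with `w (z - η)` irrational
-/

set_option autoImplicit false

open Polynomial

namespace Pool.Agent.SUA

open Pool.Agent.H15JM (RVal)
open Pool.Agent.LU1 (VPos val_add_vpos)
open Pool.Agent.D2 (exists_root_ge map_ne_zero' exists_expansion sum_min)

universe u w

variable {L : Type w} {Ω : Type u} [Field L] [Field Ω] [Algebra L Ω]

/-- The Taylor expansion of `P (z)` at `η`. -/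
theorem aeval_taylor (P : Polynomial L) (z η : Ω) {n : ℕ} (hn : P.natDegree < n) :
    aeval z P = ∑ j ∈ Finset.range n, aeval η (hasseDeriv j P) * (z - η) ^ j := by
  have h2 : ∀ j, hasseDeriv j (P.map (algebraMap L Ω)) = (hasseDeriv j P).map (algebraMap L Ω) := by
    intro j
    ext n
    rw [hasseDeriv_coeff, coeff_map, coeff_map, hasseDeriv_coeff, map_mul, map_natCast]
  have h1 : (taylor η (P.map (algebraMap L Ω))).eval (z - η) = aeval z P := by
    rw [taylor_eval_sub, eval_map_algebraMap]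
  rw [← h1, eval_eq_sum_range' (n := n) (by rw [natDegree_taylor, natDegree_map]; exact hn)]
  refine Finset.sum_congr rfl fun j _ => ?_
  rw [taylor_coeff, h2, eval_map_algebraMap]

/-- The constants `c, β, σ` of `η`. -/
structure NF (L : Type w) {Ω : Type u} [Field L] [Field Ω] [Algebra L Ω] (v : RVal Ω) (z : Ω)
    (ρ : ℝ) (η : Ω) (c : ℕ) (β σ : ℝ) : Prop extends MinEl L v z ρ η where
  c_pos : 0 < c
  c_le : c ≤ (minpoly L η).natDegree
  rho_le : ρ ≤ σ
  lt : σ < v (z - η)
  ne : aeval η (hasseDeriv c (minpoly L η)) ≠ 0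
  val_c : v (aeval η (hasseDeriv c (minpoly L η))) = β
  near : ∀ j < c, v.Ge (β + (c - j) * v (z - η)) (aeval η (hasseDeriv j (minpoly L η)))
  far_c : ∀ j, c < j → v.Ge (β - (j - c) * σ) (aeval η (hasseDeriv j (minpoly L η)))

theorem MinEl.exists_nf [IsAlgClosed Ω] {v : RVal Ω} {z : Ω} {ρ : ℝ} {η : Ω}
    (h : MinEl L v z ρ η) : ∃ c β σ, NF L v z ρ η c β σ := by
  obtain ⟨c, β, σ, h1, h2, h3, h4, h5, h6, h7, h8⟩ := h.exists_nearFar
  exact ⟨c, β, σ, h, h1, h2, h3, h4, h5, h6, h7, h8⟩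

/-- A valuation `w` which equals `v` on `N = L(η)` and has the value `γ'` at `z - η`, with
`γ'` between `σ` and `γ` and rationally independent of the values of `N`. -/
structure IrrW (L : Type w) {Ω : Type u} [Field L] [Field Ω] [Algebra L Ω] (v : RVal Ω) (z : Ω)
    (η : Ω) (σ : ℝ) (w : RVal Ω) (γ' : ℝ) : Prop where
  eq : ∀ P : Polynomial L, aeval η P ≠ 0 → w (aeval η P) = v (aeval η P)
  val : w (z - η) = γ'
  gt : σ < γ'
  lt : γ' < v (z - η)
  irr : ∀ P : Polynomial L, aeval η P ≠ 0 → ∀ n : ℕ, 0 < n → n * γ' ≠ v (aeval η P)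

section Values

variable [IsAlgClosed Ω] {v : RVal Ω} {z : Ω} {ρ : ℝ} {η : Ω} {c : ℕ} {β σ : ℝ}
  (h : NF L v z ρ η c β σ) {w : RVal Ω} {γ' : ℝ} (hw : IrrW L v z η σ w γ')

include h hw

/-- `w (P (z)) = w (P (η))` for polynomials of degree less than `d`. -/
theorem IrrW.val_low {P : Polynomial L} (hP : P ≠ 0) (hd : P.natDegree < (minpoly L η).natDegree) :
    aeval z P ≠ 0 ∧ w (aeval z P) = v (aeval η P) := by
  classical
  obtain ⟨h1, h2⟩ := h.toMinEl.hasse hP hd
  have hz0 := h.zeta_ne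
  rw [aeval_taylor P z η (Nat.lt_succ_self _)]
  have h3 := sum_min (v := w) (S := Finset.range (P.natDegree + 1))
    (x := fun j => aeval η (hasseDeriv j P) * (z - η) ^ j) (i₀ := 0)
    (Finset.mem_range.mpr (Nat.succ_pos _)) (by simpa using h1) (by
      intro j _ hj hne
      have h4 := left_ne_zero_of_mul hne
      rw [w.map_mul h4 (pow_ne_zero _ hz0), w.map_pow hz0, hw.val, hw.eq _ h4]
      simp only [hasseDeriv_zero', pow_zero, mul_one]
      rw [hw.eq _ h1]
      have h5 := h2 j h4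
      have h6 : (0 : ℝ) < j := by exact_mod_cast Nat.pos_of_ne_zero hj
      have h7 : ρ < γ' := h.rho_le.trans_lt hw.gt
      nlinarith)
  simp only [hasseDeriv_zero', pow_zero, mul_one] at h3
  rw [hw.eq _ h1] at h3
  exact h3

omit [IsAlgClosed Ω] in
/-- `w (Q (z)) = β + c γ'`. -/
theorem IrrW.val_Q : aeval z (minpoly L η) ≠ 0 ∧ w (aeval z (minpoly L η)) = β + c * γ' := by
  classical
  have hz0 := h.zeta_ne
  rw [aeval_taylor (minpoly L η) z η (Nat.lt_succ_self _)]
  have h3 := sum_min (v := w) (S := Finset.range ((minpoly L η).natDegree + 1))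
    (x := fun j => aeval η (hasseDeriv j (minpoly L η)) * (z - η) ^ j) (i₀ := c)
    (Finset.mem_range.mpr (Nat.lt_succ_of_le h.c_le)) (mul_ne_zero h.ne (pow_ne_zero _ hz0)) (by
      intro j _ hj hne
      have h4 := left_ne_zero_of_mul hne
      rw [w.map_mul h4 (pow_ne_zero _ hz0), w.map_mul h.ne (pow_ne_zero _ hz0), w.map_pow hz0,
        w.map_pow hz0, hw.val, hw.eq _ h4, hw.eq _ h.ne, h.val_c]
      rcases Nat.lt_or_gt_of_ne hj with h5 | h5
      · have h6 := h.near j h5 h4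
        have h7 : (0 : ℝ) < c - j := by
          have : (j : ℝ) < c := by exact_mod_cast h5
          linarith
        nlinarith [hw.lt, mul_pos h7 (sub_pos.mpr hw.lt)]
      · have h6 := h.far_c j h5 h4
        have h7 : (0 : ℝ) < j - c := by
          have : (c : ℝ) < j := by exact_mod_cast h5
          linarith
        nlinarith [hw.gt, mul_pos h7 (sub_pos.mpr hw.gt)])
  refine ⟨h3.1, h3.2.trans ?_⟩
  rw [w.map_mul h.ne (pow_ne_zero _ hz0), w.map_pow hz0, hw.val, hw.eq _ h.ne, h.val_c]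

omit [IsAlgClosed Ω] in
/-- The values of `N` and the multiples of `γ'` are independent. -/
theorem IrrW.indep {P P' : Polynomial L} (hP : aeval η P ≠ 0) (hP' : aeval η P' ≠ 0) {m : ℤ}
    (heq : v (aeval η P) + m * γ' = v (aeval η P')) : m = 0 := by
  -- every quotient is a value of `N`
  have hdiv : ∀ P P' : Polynomial L, aeval η P ≠ 0 → aeval η P' ≠ 0 →
      ∃ R : Polynomial L, aeval η R ≠ 0 ∧ v (aeval η R) = v (aeval η P') - v (aeval η P) := by
    intro P P' hP hP'
    have h1 : aeval η P' / aeval η P ∈ IntermediateField.adjoin L {η} := by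
      refine (IntermediateField.adjoin L {η}).div_mem ?_ ?_
      · exact (IntermediateField.algebra_adjoin_le_adjoin L {η})
          (Algebra.adjoin_singleton_eq_range_aeval (R := L) η ▸ ⟨P', rfl⟩)
      · exact (IntermediateField.algebra_adjoin_le_adjoin L {η})
          (Algebra.adjoin_singleton_eq_range_aeval (R := L) η ▸ ⟨P, rfl⟩)
    have h2 : aeval η P' / aeval η P ∈ Algebra.adjoin L {η} := by
      rw [← IntermediateField.adjoin_simple_toSubalgebra_of_isAlgebraic h.int.isAlgebraic]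
      exact h1
    rw [Algebra.adjoin_singleton_eq_range_aeval] at h2
    obtain ⟨R, hR⟩ := h2
    have hR' : aeval η R = aeval η P' / aeval η P := hR
    refine ⟨R, by rw [hR']; exact div_ne_zero hP' hP, by rw [hR', v.map_div hP' hP]⟩
  rcases lt_trichotomy m 0 with h1 | h1 | h1
  · obtain ⟨R, hR, hR'⟩ := hdiv P' P hP' hP
    exfalso
    refine hw.irr R hR m.natAbs (by omega) ?_
    rw [hR', Nat.cast_natAbs, abs_of_neg h1]
    push_cast
    linarith
  · exact h1
  · obtain ⟨R, hR, hR'⟩ := hdiv P P' hP hP'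
    exfalso
    refine hw.irr R hR m.natAbs (by omega) ?_
    rw [hR', Nat.cast_natAbs, abs_of_pos h1]
    linarith

/-- The values of `L[z]`. -/
theorem IrrW.val_poly {A : Polynomial L} (hA : A ≠ 0) : ∃ (P : Polynomial L) (s : ℕ), P ≠ 0 ∧
    P.natDegree < (minpoly L η).natDegree ∧ w (aeval z A) = v (aeval η P) + s * (β + c * γ') := by
  classical
  have hd := minpoly.natDegree_pos h.int
  obtain ⟨n, f, hf, -, hsum⟩ := exists_expansion (minpoly.monic h.int) hd A
  obtain ⟨hQ0, hQv⟩ := hw.val_Q h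
  have hA' : ∃ s, s ∈ (Finset.range n).filter (fun s => f s ≠ 0) := by
    by_contra hcon
    push Not at hcon
    apply hA
    rw [hsum]
    refine Finset.sum_eq_zero fun s hs => ?_
    have : f s = 0 := by
      by_contra h1
      exact hcon s (Finset.mem_filter.mpr ⟨hs, h1⟩)
    rw [this, zero_mul]
  set S := (Finset.range n).filter (fun s => f s ≠ 0) with hS
  obtain ⟨s₀, hs₀, hmin⟩ := Finset.exists_min_image S
    (fun s => v (aeval η (f s)) + s * (β + c * γ')) hA'
  have hne : ∀ s ∈ S, f s ≠ 0 := fun s hs => (Finset.mem_filter.mp hs).2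
  have hval : ∀ s ∈ S, aeval z (f s * minpoly L η ^ s) ≠ 0 ∧
      w (aeval z (f s * minpoly L η ^ s)) = v (aeval η (f s)) + s * (β + c * γ') := by
    intro s hs
    obtain ⟨h1, h2⟩ := hw.val_low h (hne s hs) (hf s)
    rw [map_mul, map_pow, w.map_mul h1 (pow_ne_zero _ hQ0), w.map_pow hQ0, hQv, h2]
    exact ⟨mul_ne_zero h1 (pow_ne_zero _ hQ0), rfl⟩
  have hstrict : ∀ s ∈ S, s ≠ s₀ → v (aeval η (f s₀)) + s₀ * (β + c * γ')
      < v (aeval η (f s)) + s * (β + c * γ') := by
    intro s hs hss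
    refine lt_of_le_of_ne (hmin s hs) fun heq => ?_
    obtain ⟨h1, -⟩ := h.toMinEl.hasse (hne s hs) (hf s)
    obtain ⟨h2, -⟩ := h.toMinEl.hasse (hne s₀ hs₀) (hf s₀)
    -- multiply by powers of `Q^[c](η)`
    have h3 := hw.indep h (P := f s * hasseDeriv c (minpoly L η) ^ s)
      (P' := f s₀ * hasseDeriv c (minpoly L η) ^ s₀)
      (by rw [map_mul, map_pow]; exact mul_ne_zero h1 (pow_ne_zero _ h.ne))
      (by rw [map_mul, map_pow]; exact mul_ne_zero h2 (pow_ne_zero _ h.ne))
      (m := (s - s₀ : ℤ) * c) (by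
        rw [map_mul, map_pow, v.map_mul h1 (pow_ne_zero _ h.ne), v.map_pow h.ne, h.val_c,
          map_mul, map_pow, v.map_mul h2 (pow_ne_zero _ h.ne), v.map_pow h.ne, h.val_c]
        push_cast
        linarith)
    rcases mul_eq_zero.mp h3 with h4 | h4
    · exact hss (by omega)
    · have := h.c_pos
      omega
  refine ⟨f s₀, s₀, hne s₀ hs₀, hf s₀, ?_⟩
  have hsumS : aeval z A = ∑ s ∈ S, aeval z (f s * minpoly L η ^ s) := by
    conv_lhs => rw [hsum]
    rw [map_sum, hS, Finset.sum_filter_of_ne]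
    intro s _ h1 h2
    exact h1 (by rw [h2, zero_mul, map_zero])
  rw [hsumS]
  have h5 := sum_min (v := w) (S := S) (x := fun s => aeval z (f s * minpoly L η ^ s)) hs₀
    (hval s₀ hs₀).1 (fun s hs hss _ => by
      rw [(hval s hs).2, (hval s₀ hs₀).2]
      exact hstrict s hs hss)
  rw [h5.2, (hval s₀ hs₀).2]

/-- The index: if the value of an element of `L(z)` is `j γ'` modulo the values of `N`, then
`c ∣ j`. -/
theorem IrrW.dvd {A B : Polynomial L} (hA : A ≠ 0) (hB : B ≠ 0) {P : Polynomial L}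
    (hP : aeval η P ≠ 0) {j : ℤ}
    (heq : w (aeval z A / aeval z B) = v (aeval η P) + j * γ') : (c : ℤ) ∣ j := by
  obtain ⟨P₁, s₁, h1, h2, h3⟩ := hw.val_poly h hA
  obtain ⟨P₂, s₂, h4, h5, h6⟩ := hw.val_poly h hB
  have hzA : aeval z A ≠ 0 := fun h0 => h.trans ⟨A, hA, h0⟩
  have hzB : aeval z B ≠ 0 := fun h0 => h.trans ⟨B, hB, h0⟩
  rw [w.map_div hzA hzB, h3, h6] at heq
  obtain ⟨h7, -⟩ := h.toMinEl.hasse h1 h2
  obtain ⟨h8, -⟩ := h.toMinEl.hasse h4 h5
  have h9 := hw.indep h (P := P₁ * hasseDeriv c (minpoly L η) ^ s₁)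
    (P' := P * P₂ * hasseDeriv c (minpoly L η) ^ s₂)
    (by rw [map_mul, map_pow]; exact mul_ne_zero h7 (pow_ne_zero _ h.ne))
    (by rw [map_mul, map_mul, map_pow]; exact mul_ne_zero (mul_ne_zero hP h8) (pow_ne_zero _ h.ne))
    (m := (s₁ - s₂ : ℤ) * c - j) (by
      rw [map_mul, map_pow, v.map_mul h7 (pow_ne_zero _ h.ne), v.map_pow h.ne, h.val_c,
        map_mul, map_mul, map_pow, v.map_mul (mul_ne_zero hP h8) (pow_ne_zero _ h.ne),
        v.map_mul hP h8, v.map_pow h.ne, h.val_c]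
      push_cast
      linarith)
  exact ⟨(s₁ - s₂ : ℤ), by linarith⟩

end Values

/-- `V (Q (z)) ≥ β + c γ`. -/
theorem NF.ge_Q {v : RVal Ω} {z : Ω} {ρ : ℝ} {η : Ω} {c : ℕ} {β σ : ℝ}
    (h : NF L v z ρ η c β σ) : v.Ge (β + c * v (z - η)) (aeval z (minpoly L η)) := by
  have hz0 := h.zeta_ne
  rw [aeval_taylor (minpoly L η) z η (Nat.lt_succ_self _)]
  refine RVal.Ge.sum _ _ fun j _ hne => ?_
  have h4 := left_ne_zero_of_mul hne
  rw [v.map_mul h4 (pow_ne_zero _ hz0), v.map_pow hz0]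
  rcases lt_trichotomy j c with h5 | h5 | h5
  · have := h.near j h5 h4
    linarith
  · subst h5
    rw [h.val_c]
  · have h6 := h.far_c j h5 h4
    have h7 : (0 : ℝ) < j - c := by
      have : (c : ℝ) < j := by exact_mod_cast h5
      linarith
    nlinarith [h.lt, mul_pos h7 (sub_pos.mpr h.lt)]

end Pool.Agent.SUA
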