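import Pool.Agent.Lib.SU_h17.RowE

/-!
# Project S, row E: the degree chain
-/

set_option autoImplicit false

open Polynomial

namespace Pool.Agent.SUA

open Pool.Agent.H15JM (RVal)
open Pool.Agent.LU1 (VPos val_add_vpos)
open Pool.Agent.D2 (exists_root_ge map_ne_zero' exists_expansion sum_min)
open Pool.Agent.LUC (Cl clF)

universe u w

variable {Ω : Type u} [Field Ω] {w : RVal Ω}

/-- If `c` divides all `j` such that `j * w t` is a value of `K`, then the powers
`1, t, ..., t ^ (c - 1)` are linearly independent over every subfield of the closure of `K`. -/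
theorem pow_indep {K : Subfield Ω} {t : Ω} (ht : t ≠ 0) {c : ℕ}
    (hidx : ∀ y ∈ K, y ≠ 0 → ∀ j : ℤ, w y = j * w t → (c : ℤ) ∣ j)
    (e : Fin c → Ω) (he : ∀ i, e i ∈ Cl w K) (hsum : ∑ i : Fin c, e i * t ^ (i : ℕ) = 0) :
    ∀ i, e i = 0 := by
  classical
  by_contra hcon
  push Not at hcon
  set S : Finset (Fin c) := Finset.univ.filter fun i => e i ≠ 0 with hS
  have hne : S.Nonempty := by
    obtain ⟨i, hi⟩ := hcon
    exact ⟨i, Finset.mem_filter.mpr ⟨Finset.mem_univ i, hi⟩⟩
  obtain ⟨i₀, hi₀, hmin⟩ := Finset.exists_min_image S (fun i => w (e i * t ^ (i : ℕ))) hne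
  have hSne : ∀ i ∈ S, e i ≠ 0 := fun i hi => (Finset.mem_filter.mp hi).2
  have hsumS : ∑ i ∈ S, e i * t ^ (i : ℕ) = 0 := by
    rw [← hsum, hS, Finset.sum_filter_of_ne]
    intro i _ h1 h2
    exact h1 (by rw [h2, zero_mul])
  have h5 := sum_min (v := w) (S := S) (x := fun i => e i * t ^ (i : ℕ)) hi₀
    (mul_ne_zero (hSne i₀ hi₀) (pow_ne_zero _ ht)) (fun i hi hii _ => by
      refine lt_of_le_of_ne (hmin i hi) fun heq => ?_
      have h1 := hSne i hi
      have h2 := hSne i₀ hi₀
      rw [w.map_mul h1 (pow_ne_zero _ ht), w.map_mul h2 (pow_ne_zero _ ht), w.map_pow ht,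
        w.map_pow ht] at heq
      obtain ⟨y, hy, hy0, hyv, -⟩ := Pool.Agent.LUC.Cl.exists_val (he i) 0 h1
      obtain ⟨y', hy', hy0', hyv', -⟩ := Pool.Agent.LUC.Cl.exists_val (he i₀) 0 h2
      have h3 := hidx (y' / y) (K.div_mem hy' hy) (div_ne_zero hy0' hy0) ((i : ℕ) - (i₀ : ℕ) : ℤ) (by
        rw [w.map_div hy0' hy0, hyv, hyv']
        push_cast
        linarith)
      obtain ⟨m, hm⟩ := h3
      have h6 := i.2
      have h7 := i₀.2
      have h8 : m = 0 := by
        by_contra h9
        rcases lt_or_gt_of_ne h9 with h10 | h10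
        · have : (c : ℤ) * m ≤ (c : ℤ) * (-1) := by
            apply mul_le_mul_of_nonneg_left (by omega) (by omega)
          omega
        · have : (c : ℤ) * 1 ≤ (c : ℤ) * m := by
            apply mul_le_mul_of_nonneg_left (by omega) (by omega)
          omega
      rw [h8, mul_zero] at hm
      exact hii (Fin.ext (by omega)))
  exact h5.1 hsumS

/-- The degree chain: `F₀ ≤ M` fields, `M` spanned by `c` elements over `F₀`, `K ≤ M`, `K` and `F₀`
in the closure of `K`, `t ∈ M` of value of order at least `c` modulo the values of `K`. Then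
`K ≤ F₀`. -/
theorem le_of_chain {K F₀ M : Subfield Ω} (hFM : F₀ ≤ M) (hKM : K ≤ M)
    (hF₀ : ∀ x ∈ F₀, x ∈ Cl w K) {t : Ω} (ht : t ≠ 0) (htM : t ∈ M) {c : ℕ} (hc : 0 < c)
    (hidx : ∀ y ∈ K, y ≠ 0 → ∀ j : ℤ, w y = j * w t → (c : ℤ) ∣ j)
    (b : Fin c → Ω)
    (hspan : ∀ x ∈ M, ∃ a : Fin c → Ω, (∀ i, a i ∈ F₀) ∧ x = ∑ i, a i * b i) :
    K ≤ F₀ := by
  classical
  set E : Subfield Ω := F₀ ⊔ K with hE
  have hEM : E ≤ M := sup_le hFM hKM
  have hECl : E ≤ clF w K := sup_le (fun x hx => hF₀ x hx) Pool.Agent.LUC.le_clF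
  have hFE : F₀ ≤ E := le_sup_left
  -- the upper bound
  have h1 : Subfield.relrank F₀ M ≤ c := by
    rw [Subfield.relrank_eq_rank_of_le hFM]
    have hle : (Subfield.extendScalars hFM).toSubalgebra.toSubmodule
        ≤ Submodule.span F₀ (Set.range b) := by
      intro x hx
      obtain ⟨a, ha, hxa⟩ := hspan x hx
      rw [hxa]
      refine Submodule.sum_mem _ fun i _ => ?_
      have : a i * b i = (⟨a i, ha i⟩ : F₀) • b i := rfl
      rw [this]
      exact Submodule.smul_mem _ _ (Submodule.subset_span ⟨i, rfl⟩)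
    have h2 := Submodule.rank_mono hle
    refine h2.trans ((rank_span_le _).trans ?_)
    have h3 := Cardinal.mk_range_le_lift (f := b)
    simpa using h3
  -- the lower bound
  have h2 : (c : Cardinal) ≤ Subfield.relrank E M := by
    rw [Subfield.relrank_eq_rank_of_le hEM]
    have hli : LinearIndependent E (fun i : Fin c =>
        (⟨t ^ (i : ℕ), M.pow_mem htM _⟩ : Subfield.extendScalars hEM)) := by
      rw [Fintype.linearIndependent_iff]
      intro g hg i
      have h4 : ∑ i : Fin c, (g i : Ω) * t ^ (i : ℕ) = 0 := by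
        have h5 : ((∑ i : Fin c, g i • (⟨t ^ (i : ℕ), M.pow_mem htM _⟩ :
            Subfield.extendScalars hEM) : Subfield.extendScalars hEM) : Ω)
            = ∑ i : Fin c, (g i : Ω) * t ^ (i : ℕ) := by
          rw [IntermediateField.coe_sum]
          rfl
        rw [← h5, hg]
        rfl
      have h6 := pow_indep ht hidx (fun i => (g i : Ω)) (fun i => hECl (g i).2) h4 i
      exact Subtype.ext h6
    have := hli.cardinal_lift_le_rank
    simpa using this
  have h3 := Subfield.relrank_mul_relrank hFE hEM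
  have h4 : Subfield.relrank F₀ E = 1 := by
    by_contra h5
    have h6 : Subfield.relrank F₀ E ≠ 0 := by
      rw [Subfield.relrank_eq_rank_of_le hFE]
      exact rank_pos.ne'
    have h7 : 2 ≤ Subfield.relrank F₀ E := by
      rcases lt_or_ge (Subfield.relrank F₀ E) Cardinal.aleph0 with h8 | h8
      · obtain ⟨n, hn⟩ := Cardinal.lt_aleph0.mp h8
        rw [hn] at h5 h6 ⊢
        have h9 : n ≠ 1 := fun h => h5 (by rw [h]; simp)
        have h10 : n ≠ 0 := fun h => h6 (by rw [h]; simp)
        exact_mod_cast (by omega : 2 ≤ n)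
      · exact (Cardinal.natCast_lt_aleph0 (n := 2)).le.trans h8
    have h8 : 2 * (c : Cardinal) ≤ c := by
      calc 2 * (c : Cardinal) ≤ Subfield.relrank F₀ E * Subfield.relrank E M :=
            mul_le_mul' h7 h2
        _ = Subfield.relrank F₀ M := h3
        _ ≤ c := h1
    have h9 : 2 * c ≤ c := by exact_mod_cast h8
    omega
  rw [Subfield.relrank_eq_one_iff] at h4
  exact le_sup_right.trans h4

end Pool.Agent.SUA
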